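import Mathlib

/-!
# The separable complementation property: definitions

All definitions used by the statements of `Characterization` and `RichCriterion`.
`𝕜` is `ℝ` or `ℂ` (`RCLike`); `IsSeparable` and `Submodule.ClosedComplemented` are Mathlib's
(`T.ClosedComplemented` : there is a bounded linear projection of the space onto `T`).
-/

set_option autoImplicit false

namespace Pool.Agent.Work.MP_156639_an

open TopologicalSpace Set

/-- The separable complementation property (SCP): every separable linear subspace is contained in
a separable complemented subspace. -/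
def SCP (𝕜 : Type*) [RCLike 𝕜] (X : Type*) [NormedAddCommGroup X] [NormedSpace 𝕜 X] : Prop :=
  ∀ S : Submodule 𝕜 X, IsSeparable (S : Set X) →
    ∃ T : Submodule 𝕜 X, S ≤ T ∧ IsSeparable (T : Set X) ∧ T.ClosedComplemented

/-- `Y` has the separable fixing property if for every separable subspace `S` of `Y` there is a
bounded operator `u : Y → Y` with separable range which fixes every point of `S`
(`u` need not be a projection). -/
def SepFix (𝕜 : Type*) [RCLike 𝕜] (Y : Type*) [NormedAddCommGroup Y] [NormedSpace 𝕜 Y] : Prop :=
  ∀ S : Submodule 𝕜 Y, IsSeparable (S : Set Y) →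
    ∃ u : Y →L[𝕜] Y, IsSeparable (range u) ∧ ∀ s ∈ S, u s = s

/-- `T` is complemented in its bidual: there is a bounded operator `π : T** → T` with
`π (J t) = t` for all `t`, where `J : T → T**` is the canonical embedding. -/
def BidualComplemented (𝕜 : Type*) [RCLike 𝕜] (T : Type*) [NormedAddCommGroup T]
    [NormedSpace 𝕜 T] : Prop :=
  ∃ π : StrongDual 𝕜 (StrongDual 𝕜 T) →L[𝕜] T,
    ∀ t, π (NormedSpace.inclusionInDoubleDual 𝕜 T t) = t

/-- A rich family of separable subspaces: its members are separable, every separable
subspace is contained in a member, and the closure of the union of an increasing sequence of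
members is a member. -/
structure RichFamily (𝕜 : Type*) [RCLike 𝕜] (Y : Type*) [NormedAddCommGroup Y] [NormedSpace 𝕜 Y]
    (𝓕 : Set (Submodule 𝕜 Y)) : Prop where
  separable : ∀ F ∈ 𝓕, IsSeparable (F : Set Y)
  cofinal : ∀ S : Submodule 𝕜 Y, IsSeparable (S : Set Y) → ∃ F ∈ 𝓕, S ≤ F
  closure_mem : ∀ F : ℕ → Submodule 𝕜 Y, Monotone F → (∀ n, F n ∈ 𝓕) →
    (⨆ n, F n).topologicalClosure ∈ 𝓕

end Pool.Agent.Work.MP_156639_an
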