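import Mathlib
import Pool.Agent.Work.MP_156639_an_helper49.Defs

/-!
# The separable complementation property and complemented subspaces

Basic definitions and the general construction.
-/

set_option autoImplicit false

namespace Pool.Agent.Work.MP_156639_an

open TopologicalSpace Set
open scoped ENNReal lp

universe u

section General

variable {𝕜 : Type*} [RCLike 𝕜]
variable {X : Type*} [NormedAddCommGroup X] [NormedSpace 𝕜 X]
variable {Y : Type*} [NormedAddCommGroup Y] [NormedSpace 𝕜 Y]

theorem scp_of_idem (h : ∀ S : Submodule 𝕜 X, IsSeparable (S : Set X) →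
    ∃ P : X →L[𝕜] X, (∀ x, P (P x) = P x) ∧ IsSeparable (range P) ∧ ∀ s ∈ S, P s = s) :
    SCP 𝕜 X := by
  intro S hS
  obtain ⟨P, hPP, hsep, hfix⟩ := h S hS
  refine ⟨LinearMap.range P.toLinearMap, ?_, ?_, ?_⟩
  · intro s hs
    exact ⟨s, hfix s hs⟩
  · have : ((LinearMap.range P.toLinearMap : Submodule 𝕜 X) : Set X) = range P := by
      ext x; simp
    rw [this]; exact hsep
  · refine ⟨P.codRestrict _ (fun x => ⟨x, rfl⟩), ?_⟩
    rintro ⟨x, y, rfl⟩
    ext
    simpa using hPP y

theorem SCP.idem (h : SCP 𝕜 X) (S : Submodule 𝕜 X) (hS : IsSeparable (S : Set X)) :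
    ∃ P : X →L[𝕜] X, (∀ x, P (P x) = P x) ∧ IsSeparable (range P) ∧ ∀ s ∈ S, P s = s := by
  obtain ⟨T, hST, hT, p, hp⟩ := h S hS
  refine ⟨T.subtypeL.comp p, ?_, ?_, ?_⟩
  · intro x
    simp [hp (p x)]
  · refine hT.mono ?_
    rintro _ ⟨x, rfl⟩
    exact (p x).2
  · intro s hs
    have := hp ⟨s, hST hs⟩
    simp [this]

/-- A complemented subspace of a space with the SCP has the separable fixing property. -/
theorem sepFix_of_retract (h : SCP 𝕜 X) (i : Y →L[𝕜] X) (r : X →L[𝕜] Y)
    (hri : ∀ y, r (i y) = y) : SepFix 𝕜 Y := by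
  intro S hS
  have hS' : IsSeparable ((S.map i.toLinearMap : Submodule 𝕜 X) : Set X) := by
    have : ((S.map i.toLinearMap : Submodule 𝕜 X) : Set X) = i '' (S : Set Y) := by
      ext x; simp
    rw [this]
    exact hS.image i.continuous
  obtain ⟨P, -, hsep, hfix⟩ := h.idem _ hS'
  refine ⟨r.comp (P.comp i), ?_, ?_⟩
  · refine (hsep.image r.continuous).mono ?_
    rintro _ ⟨y, rfl⟩
    exact ⟨P (i y), ⟨i y, rfl⟩, rfl⟩
  · intro s hs
    have h1 : P (i s) = i s := hfix _ ⟨s, hs, rfl⟩
    simp [h1, hri]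

theorem SCP.sepFix (h : SCP 𝕜 X) : SepFix 𝕜 X :=
  sepFix_of_retract h (ContinuousLinearMap.id 𝕜 X) (ContinuousLinearMap.id 𝕜 X) (fun _ => rfl)

end General

section Lp

variable {𝕜 : Type*} [RCLike 𝕜] {ι : Type*} {E : ι → Type*} [∀ i, NormedAddCommGroup (E i)]
  [∀ i, NormedSpace 𝕜 (E i)] {p : ℝ≥0∞} [Fact (1 ≤ p)]

open Classical in
/-- The restriction of the support to `J`, as a bounded operator on the `ℓ_p`-sum. -/
noncomputable def res (𝕜 : Type*) [RCLike 𝕜] {ι : Type*} {E : ι → Type*}
    [∀ i, NormedAddCommGroup (E i)] [∀ i, NormedSpace 𝕜 (E i)] {p : ℝ≥0∞} [Fact (1 ≤ p)]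
    (J : Set ι) : lp E p →L[𝕜] lp E p :=
  LinearMap.mkContinuous
    { toFun := fun z => ⟨fun i => if i ∈ J then z i else 0, (lp.memℓp z).mono' (fun i => by
        split_ifs
        · exact le_rfl
        · simp)⟩
      map_add' := fun z w => by
        ext i
        simp only [lp.coeFn_add, Pi.add_apply]
        split_ifs <;> simp
      map_smul' := fun c z => by
        ext i
        simp only [lp.coeFn_smul, Pi.smul_apply, RingHom.id_apply]
        change (if i ∈ J then c • z i else 0) = c • (if i ∈ J then z i else 0)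
        split_ifs <;> simp }
    1 (fun z => by
      rw [one_mul]
      refine lp.norm_mono (zero_lt_one.trans_le Fact.out).ne' (fun i => ?_)
      change ‖(if i ∈ J then z i else 0)‖ ≤ _
      split_ifs
      · exact le_rfl
      · simp)

theorem res_apply_mem {J : Set ι} (z : lp E p) {i : ι} (hi : i ∈ J) : res 𝕜 J z i = z i := by
  classical
  change (if i ∈ J then z i else 0) = z i
  rw [if_pos hi]

theorem res_apply_notMem {J : Set ι} (z : lp E p) {i : ι} (hi : i ∉ J) : res 𝕜 J z i = 0 := by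
  classical
  change (if i ∈ J then z i else 0) = 0
  rw [if_neg hi]

theorem res_eq_self {J : Set ι} {z : lp E p} (h : ∀ i ∉ J, z i = 0) : res 𝕜 J z = z := by
  ext i
  by_cases hi : i ∈ J
  · exact res_apply_mem z hi
  · rw [res_apply_notMem z hi, h i hi]

theorem countable_support (hp : p ≠ ⊤) (z : lp E p) : {i | z i ≠ 0}.Countable := by
  have hp₀ : 0 < p := zero_lt_one.trans_le Fact.out
  have hp' : 0 < p.toReal := ENNReal.toReal_pos hp₀.ne' hp
  have h := (lp.memℓp z).summable hp'
  have hc : (Function.support fun i => ‖z i‖ ^ p.toReal).Countable :=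
    Set.Countable.mono (fun i hi => hi) (Summable.countable_support (f := fun i => ‖z i‖ ^ p.toReal) h)
  refine hc.mono ?_
  intro i hi
  simp only [Function.mem_support]
  have : 0 < ‖z i‖ := norm_pos_iff.mpr hi
  positivity

theorem isSeparable_range_res (hp : p ≠ ⊤) [∀ i, SeparableSpace (E i)] {J : Set ι}
    (hJ : J.Countable) : IsSeparable (range (res 𝕜 J : lp E p →L[𝕜] lp E p)) := by
  classical
  have : Countable J := hJ.to_subtype
  have h1 : IsSeparable (⋃ j : J, range (lp.singleContinuousLinearMap 𝕜 E p j)) :=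
    IsSeparable.iUnion (fun j => isSeparable_range (lp.singleContinuousLinearMap 𝕜 E p j).continuous)
  have h2 : IsSeparable (closure ((Submodule.span 𝕜
      (⋃ j : J, range (lp.singleContinuousLinearMap 𝕜 E p j)) : Submodule 𝕜 (lp E p)) :
        Set (lp E p))) := (h1.span (R := 𝕜)).closure
  refine h2.mono ?_
  rintro _ ⟨z, rfl⟩
  have h3 := lp.hasSum_single hp (res 𝕜 J z)
  refine mem_closure_of_tendsto h3 (Filter.Eventually.of_forall (fun s => ?_))
  refine Submodule.sum_mem _ (fun i _ => ?_)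
  by_cases hi : i ∈ J
  · refine Submodule.subset_span (mem_iUnion.mpr ⟨⟨i, hi⟩, ⟨(res 𝕜 J z) i, rfl⟩⟩)
  · rw [res_apply_notMem z hi]
    simp

end Lp

end Pool.Agent.Work.MP_156639_an
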