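import Mathlib
import Pool.Agent.Work.MP_156639_an_helper49.Basic

/-!
# A space with the separable fixing property is a complemented subspace of an SCP space

The complement is an `ℓ_p`-sum of separable Banach spaces.
-/

set_option autoImplicit false

namespace Pool.Agent.Work.MP_156639_an

open TopologicalSpace Set
open scoped ENNReal lp

universe u

section Core

variable {𝕜 : Type*} [RCLike 𝕜] {Y : Type*} [NormedAddCommGroup Y] [NormedSpace 𝕜 Y]
variable {ι : Type*} {E : ι → Type*} [∀ i, NormedAddCommGroup (E i)]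
  [∀ i, NormedSpace 𝕜 (E i)] {p : ℝ≥0∞} [Fact (1 ≤ p)]

/-- The elementary step: `U : Y → E i₀`, `V : E i₀ → Y` with `V (U y) = y` for the `y` which are
to be fixed; then there is an idempotent on `Y × ℓ_p(E)` with separable range. -/
theorem core (hp : p ≠ ⊤) [∀ i, SeparableSpace (E i)] {J : Set ι} (hJ : J.Countable)
    {i₀ : ι} (hi₀ : i₀ ∉ J) (U : Y →L[𝕜] E i₀) (V : E i₀ →L[𝕜] Y) :
    ∃ P : (Y × lp E p) →L[𝕜] (Y × lp E p), (∀ x, P (P x) = P x) ∧ IsSeparable (range P) ∧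
      ∀ y z, V (U y) = y → (∀ i ∉ J, z i = 0) → P (y, z) = (y, z) := by
  classical
  set W : (Y × lp E p) →L[𝕜] E i₀ :=
    U.comp (ContinuousLinearMap.fst 𝕜 Y (lp E p)) +
      (lp.evalCLM 𝕜 E p i₀).comp (ContinuousLinearMap.snd 𝕜 Y (lp E p)) with hW
  have hWa : ∀ y z, W (y, z) = U y + z i₀ := fun y z => rfl
  set sg : E i₀ →L[𝕜] lp E p := lp.singleContinuousLinearMap 𝕜 E p i₀ with hsg
  have hsga : ∀ v, sg v = lp.single p i₀ v := fun v => rfl
  set Q : (E i₀ × lp E p) →L[𝕜] (Y × lp E p) :=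
    (V.comp (ContinuousLinearMap.fst 𝕜 (E i₀) (lp E p))).prod
      ((ContinuousLinearMap.snd 𝕜 (E i₀) (lp E p)) +
        (sg.comp (ContinuousLinearMap.id 𝕜 (E i₀) - U.comp V)).comp
          (ContinuousLinearMap.fst 𝕜 (E i₀) (lp E p))) with hQ
  have hQa : ∀ w z, Q (w, z) = (V w, z + lp.single p i₀ (w - U (V w))) := fun w z => rfl
  set P : (Y × lp E p) →L[𝕜] (Y × lp E p) :=
    Q.comp (W.prod ((res 𝕜 J).comp (ContinuousLinearMap.snd 𝕜 Y (lp E p)))) with hP
  have hPa : ∀ y z, P (y, z) = (V (W (y, z)),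
      res 𝕜 J z + lp.single p i₀ (W (y, z) - U (V (W (y, z))))) := fun y z => rfl
  have hres1 : ∀ v, res 𝕜 J (lp.single p i₀ v : lp E p) = 0 := by
    intro v
    ext i
    by_cases hi : i ∈ J
    · rw [res_apply_mem _ hi, lp.single_apply_ne]
      · simp
      · rintro rfl; exact hi₀ hi
    · rw [res_apply_notMem _ hi]; simp
  have hres2 : ∀ z : lp E p, res 𝕜 J (res 𝕜 J z) = res 𝕜 J z := fun z =>
    res_eq_self (fun i hi => res_apply_notMem z hi)
  refine ⟨P, ?_, ?_, ?_⟩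
  · rintro ⟨y, z⟩
    have h1 : W (P (y, z)) = W (y, z) := by
      rw [hPa, hWa]
      rw [lp.coeFn_add, Pi.add_apply, res_apply_notMem z hi₀, lp.single_apply_self]
      abel
    have h2 : res 𝕜 J (P (y, z)).2 = res 𝕜 J z := by
      rw [hPa]
      simp only [map_add, hres1, hres2, add_zero]
    calc P (P (y, z)) = (V (W (P (y, z))), res 𝕜 J (P (y, z)).2 +
          lp.single p i₀ (W (P (y, z)) - U (V (W (P (y, z)))))) := hPa _ _
      _ = P (y, z) := by rw [h1, h2, hPa]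
  · have h1 : IsSeparable ((univ : Set (E i₀)) ×ˢ range (res 𝕜 J : lp E p →L[𝕜] lp E p)) :=
      (isSeparable_univ_iff.mpr inferInstance).prod (isSeparable_range_res hp hJ)
    refine (h1.image Q.continuous).mono ?_
    rintro _ ⟨⟨y, z⟩, rfl⟩
    exact ⟨(W (y, z), res 𝕜 J z), ⟨mem_univ _, ⟨z, rfl⟩⟩, rfl⟩
  · intro y z hy hz
    have h1 : W (y, z) = U y := by rw [hWa, hz i₀ hi₀, add_zero]
    rw [hPa, h1, hy, sub_self, res_eq_self hz]
    simp

end Core

section Main

variable (𝕜 : Type*) [RCLike 𝕜] (Y : Type u) [NormedAddCommGroup Y] [NormedSpace 𝕜 Y]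

/-- The index set: separable subspaces of `Y`, each repeated continuum many times. -/
abbrev Idx : Type u := {S : Submodule 𝕜 Y // IsSeparable (S : Set Y)} × ℝ

variable {𝕜 Y}

/-- The chosen operator for the index `γ`. -/
noncomputable def op (h : SepFix 𝕜 Y) (γ : Idx 𝕜 Y) : Y →L[𝕜] Y := (h γ.1.1 γ.1.2).choose

theorem op_sep (h : SepFix 𝕜 Y) (γ : Idx 𝕜 Y) : IsSeparable (range (op h γ)) :=
  (h γ.1.1 γ.1.2).choose_spec.1

theorem op_fix (h : SepFix 𝕜 Y) (γ : Idx 𝕜 Y) : ∀ s ∈ γ.1.1, op h γ s = s :=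
  (h γ.1.1 γ.1.2).choose_spec.2

/-- The closure of the range of the chosen operator: a separable Banach space. -/
abbrev Sum (h : SepFix 𝕜 Y) (γ : Idx 𝕜 Y) : Type u :=
  ↥((LinearMap.range (op h γ).toLinearMap).topologicalClosure)

theorem separableSpace_sum (h : SepFix 𝕜 Y) (γ : Idx 𝕜 Y) : SeparableSpace (Sum h γ) := by
  have h1 : IsSeparable (((LinearMap.range (op h γ).toLinearMap).topologicalClosure :
      Submodule 𝕜 Y) : Set Y) := by
    have h2 := (op_sep h γ).closure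
    refine h2.mono ?_
    rw [Submodule.topologicalClosure_coe]
    refine closure_mono ?_
    intro x hx
    simpa using hx
  exact h1.separableSpace

theorem completeSpace_sum [CompleteSpace Y] (h : SepFix 𝕜 Y) (γ : Idx 𝕜 Y) :
    CompleteSpace (Sum h γ) :=
  (Submodule.isClosed_topologicalClosure _).completeSpace_coe

/-- A countable set of coordinates supporting a separable subset of the `ℓ_p`-sum. -/
theorem countable_coords {ι : Type*} {E : ι → Type*} [∀ i, NormedAddCommGroup (E i)]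
    {p : ℝ≥0∞} [Fact (1 ≤ p)] (hp : p ≠ ⊤) {A : Set (lp E p)} (hA : IsSeparable A) :
    {i | ∃ z ∈ A, z i ≠ 0}.Countable := by
  obtain ⟨D, hD, hAD⟩ := hA
  have h1 : (⋃ d ∈ D, {i | (d : lp E p) i ≠ 0}).Countable :=
    hD.biUnion (fun d _ => countable_support hp d)
  refine h1.mono ?_
  rintro i ⟨z, hz, hzi⟩
  by_contra hcon
  apply hzi
  have h2 : ∀ d ∈ D, (d : lp E p) i = 0 := by
    intro d hd
    by_contra h3
    exact hcon (mem_biUnion hd h3)
  have h3 : IsClosed {z : lp E p | z i = 0} :=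
    isClosed_eq (lp.lipschitzWith_one_eval p i).continuous continuous_const
  exact (closure_minimal h2 h3) (hAD hz)

theorem scp_prod (h : SepFix 𝕜 Y) {p : ℝ≥0∞} [Fact (1 ≤ p)] (hp : p ≠ ⊤) :
    SCP 𝕜 (Y × lp (Sum h) p) := by
  classical
  apply scp_of_idem
  intro R hR
  set S₀ : Submodule 𝕜 Y := R.map (LinearMap.fst 𝕜 Y (lp (Sum h) p)) with hS₀
  have hS₀sep : IsSeparable (S₀ : Set Y) := by
    have : (S₀ : Set Y) = Prod.fst '' (R : Set (Y × lp (Sum h) p)) := by
      ext x; simp [hS₀]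
    rw [this]
    exact hR.image continuous_fst
  set A : Set (lp (Sum h) p) := Prod.snd '' (R : Set (Y × lp (Sum h) p)) with hA
  have hAsep : IsSeparable A := hR.image continuous_snd
  set J : Set (Idx 𝕜 Y) := {i | ∃ z ∈ A, z i ≠ 0} with hJ
  have hJc : J.Countable := countable_coords hp hAsep
  -- choose a fresh copy
  obtain ⟨a, ha⟩ : ∃ a : ℝ, ((⟨S₀, hS₀sep⟩, a) : Idx 𝕜 Y) ∉ J := by
    by_contra hcon
    push Not at hcon
    have h1 : (univ : Set ℝ).Countable := by
      have h2 : ((fun a : ℝ => ((⟨S₀, hS₀sep⟩, a) : Idx 𝕜 Y)) ⁻¹' J).Countable :=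
        hJc.preimage (fun a b hab => (Prod.ext_iff.mp hab).2)
      refine h2.mono (fun a _ => hcon a)
    exact Cardinal.not_countable_real h1
  set γ : Idx 𝕜 Y := (⟨S₀, hS₀sep⟩, a) with hγ
  have : ∀ i, SeparableSpace (Sum h i) := fun i => separableSpace_sum h i
  set U : Y →L[𝕜] Sum h γ := (op h γ).codRestrict _ (fun y =>
    Submodule.le_topologicalClosure _ ⟨y, rfl⟩) with hU
  obtain ⟨P, hPP, hPs, hPf⟩ := core (p := p) (E := Sum h) hp hJc ha U
    ((LinearMap.range (op h γ).toLinearMap).topologicalClosure).subtypeL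
  refine ⟨P, hPP, hPs, ?_⟩
  rintro ⟨y, z⟩ hyz
  refine hPf y z ?_ ?_
  · have hy : y ∈ S₀ := ⟨(y, z), hyz, rfl⟩
    exact op_fix h γ y hy
  · intro i hi
    by_contra hne
    exact hi ⟨z, ⟨(y, z), hyz, rfl⟩, hne⟩

end Main

end Pool.Agent.Work.MP_156639_an
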