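import Mathlib
import Pool.Agent.Work.MP_156639_an_helper49.Construct

/-!
# Complemented subspaces of Banach spaces with the separable complementation property
-/

set_option autoImplicit false

universe u

open TopologicalSpace Set
open scoped ENNReal lp
open Pool.Agent.Work.MP_156639_an

namespace Pool.Agent.Work.MP_156639_an_helper49.CharacterizationProof

theorem scp_congr {𝕜 : Type*} [RCLike 𝕜] {Y W : Type*} [NormedAddCommGroup Y] [NormedSpace 𝕜 Y]
    [NormedAddCommGroup W] [NormedSpace 𝕜 W] (e : Y ≃L[𝕜] W) (h : SCP 𝕜 W) : SCP 𝕜 Y := by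
  apply scp_of_idem
  intro S hS
  have hS' : IsSeparable ((S.map e.toLinearMap : Submodule 𝕜 W) : Set W) := by
    have : ((S.map e.toLinearMap : Submodule 𝕜 W) : Set W) = e '' (S : Set Y) := by
      ext x; simp
    rw [this]
    exact hS.image e.continuous
  obtain ⟨P, hPP, hPs, hPf⟩ := h.idem _ hS'
  refine ⟨(e.symm : W →L[𝕜] Y).comp (P.comp (e : Y →L[𝕜] W)), ?_, ?_, ?_⟩
  · intro y
    simp [hPP]
  · refine (hPs.image e.symm.continuous).mono ?_
    rintro _ ⟨y, rfl⟩
    exact ⟨P (e y), ⟨e y, rfl⟩, rfl⟩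
  · intro s hs
    have : P (e s) = e s := hPf _ ⟨s, hs, rfl⟩
    simp [this]

/-- `Y` is isomorphic to the closed complemented subspace `Y × 0` of `Y × Z`. -/
theorem exists_complemented (𝕜 : Type*) [RCLike 𝕜] (Y Z : Type*) [NormedAddCommGroup Y]
    [NormedSpace 𝕜 Y] [NormedAddCommGroup Z] [NormedSpace 𝕜 Z] :
    ∃ W : Submodule 𝕜 (Y × Z), W.ClosedComplemented ∧ Nonempty (Y ≃L[𝕜] W) := by
  let W : Submodule 𝕜 (Y × Z) := LinearMap.range (LinearMap.inl 𝕜 Y Z)
  have hW : ∀ y : Y, ((y, 0) : Y × Z) ∈ W := fun y => ⟨y, rfl⟩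
  let i : Y →L[𝕜] W := (ContinuousLinearMap.inl 𝕜 Y Z).codRestrict W hW
  refine ⟨W, ⟨i.comp (ContinuousLinearMap.fst 𝕜 Y Z), ?_⟩, ⟨ContinuousLinearEquiv.equivOfInverse i
    ((ContinuousLinearMap.fst 𝕜 Y Z).comp W.subtypeL) (fun y => rfl) ?_⟩⟩
  · rintro ⟨_, y, rfl⟩
    rfl
  · rintro ⟨_, y, rfl⟩
    rfl

theorem main (𝕜 : Type) [RCLike 𝕜] (p : ℝ≥0∞) [Fact (1 ≤ p)] (hp : p ≠ ⊤) :
    -- intrinsic characterisation of the complemented subspaces of spaces with the SCP
    (∀ (Y : Type u) [NormedAddCommGroup Y] [NormedSpace 𝕜 Y] [CompleteSpace Y],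
      List.TFAE [
        -- `Y` is isomorphic to a complemented subspace of a Banach space with the SCP
        ∃ (X : Type u) (_ : NormedAddCommGroup X) (_ : NormedSpace 𝕜 X) (_ : CompleteSpace X),
          SCP 𝕜 X ∧ ∃ W : Submodule 𝕜 X, W.ClosedComplemented ∧ Nonempty (Y ≃L[𝕜] W),
        -- every separable subspace is fixed by an operator of `Y` with separable range
        SepFix 𝕜 Y,
        -- the complement can be taken to be an `ℓ_p`-sum of separable Banach spaces
        ∃ (ι : Type u) (E : ι → Type u) (_ : ∀ i, NormedAddCommGroup (E i))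
          (_ : ∀ i, NormedSpace 𝕜 (E i)),
          (∀ i, CompleteSpace (E i)) ∧ (∀ i, SeparableSpace (E i)) ∧ SCP 𝕜 (Y × lp E p)]) ∧
    -- three equivalent forms of Q1
    List.TFAE [
      -- the positive answer to Q1
      ∀ (X : Type u) [NormedAddCommGroup X] [NormedSpace 𝕜 X] [CompleteSpace X], SCP 𝕜 X →
        ∀ Y : Submodule 𝕜 X, Y.ClosedComplemented → SCP 𝕜 Y,
      -- the separable fixing property implies the SCP
      ∀ (Y : Type u) [NormedAddCommGroup Y] [NormedSpace 𝕜 Y] [CompleteSpace Y],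
        SepFix 𝕜 Y → SCP 𝕜 Y,
      -- the positive answer to Q1 when the complement is an `ℓ_p`-sum of separable Banach spaces
      ∀ (Y : Type u) [NormedAddCommGroup Y] [NormedSpace 𝕜 Y] [CompleteSpace Y]
        (ι : Type u) (E : ι → Type u) [∀ i, NormedAddCommGroup (E i)]
        [∀ i, NormedSpace 𝕜 (E i)] [∀ i, CompleteSpace (E i)] [∀ i, SeparableSpace (E i)],
        SCP 𝕜 (Y × lp E p) → SCP 𝕜 Y] := by
  constructor
  · intro Y _ _ _
    tfae_have 1 → 2 := by
      rintro ⟨X, _, _, _, hX, W, ⟨q, hq⟩, ⟨e⟩⟩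
      refine sepFix_of_retract hX (W.subtypeL.comp (e : Y →L[𝕜] W))
        ((e.symm : W →L[𝕜] Y).comp q) (fun y => ?_)
      simp [hq (e y)]
    tfae_have 2 → 3 := by
      intro h
      have h1 : ∀ i, SeparableSpace (Sum h i) := fun i => separableSpace_sum h i
      have h2 : ∀ i, CompleteSpace (Sum h i) := fun i => completeSpace_sum h i
      exact ⟨Idx 𝕜 Y, Sum h, inferInstance, inferInstance, h2, h1, scp_prod h hp⟩
    tfae_have 3 → 1 := by
      rintro ⟨ι, E, _, _, _, _, h⟩
      exact ⟨Y × lp E p, inferInstance, inferInstance, inferInstance, h,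
        exists_complemented 𝕜 Y (lp E p)⟩
    tfae_finish
  · tfae_have 1 → 2 := by
      intro H Y _ _ _ h
      have h2 : ∀ i, CompleteSpace (Sum h i) := fun i => completeSpace_sum h i
      obtain ⟨W, hW, ⟨e⟩⟩ := exists_complemented 𝕜 Y (lp (Sum h) p)
      exact scp_congr e (H _ (scp_prod h hp) W hW)
    tfae_have 2 → 1 := by
      intro H X _ _ _ hX Y hY
      have : CompleteSpace Y := hY.isClosed.completeSpace_coe
      obtain ⟨q, hq⟩ := hY
      exact H Y (sepFix_of_retract hX Y.subtypeL q hq)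
    tfae_have 2 → 3 := by
      intro H Y _ _ _ ι E _ _ _ _ h
      exact H Y (sepFix_of_retract h (ContinuousLinearMap.inl 𝕜 Y (lp E p))
        (ContinuousLinearMap.fst 𝕜 Y (lp E p)) (fun y => rfl))
    tfae_have 3 → 2 := by
      intro H Y _ _ _ h
      have h1 : ∀ i, SeparableSpace (Sum h i) := fun i => separableSpace_sum h i
      have h2 : ∀ i, CompleteSpace (Sum h i) := fun i => completeSpace_sum h i
      exact H Y (Idx 𝕜 Y) (Sum h) (scp_prod h hp)
    tfae_finish

end Pool.Agent.Work.MP_156639_an_helper49.CharacterizationProof
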