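import Mathlib
import Pool.Agent.Work.MP_156639_an_helper49.Basic

/-!
# Consequences of the separable fixing property
-/

set_option autoImplicit false

namespace Pool.Agent.Work.MP_156639_an

open TopologicalSpace Set Filter
open scoped ENNReal Topology

universe u

section Uniform

variable {𝕜 : Type*} [RCLike 𝕜] {Y : Type*} [NormedAddCommGroup Y] [NormedSpace 𝕜 Y]

theorem isSeparable_iSup (S : ℕ → Submodule 𝕜 Y) (hS : ∀ n, IsSeparable (S n : Set Y)) :
    IsSeparable ((⨆ n, S n : Submodule 𝕜 Y) : Set Y) := by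
  rw [Submodule.iSup_eq_span]
  exact (IsSeparable.iUnion hS).span

/-- The operators in the separable fixing property can be chosen uniformly bounded. -/
theorem SepFix.uniform (h : SepFix 𝕜 Y) : ∃ M : ℝ, 0 ≤ M ∧ ∀ S : Submodule 𝕜 Y,
    IsSeparable (S : Set Y) →
      ∃ u : Y →L[𝕜] Y, ‖u‖ ≤ M ∧ IsSeparable (range u) ∧ ∀ s ∈ S, u s = s := by
  by_contra hcon
  push Not at hcon
  have h1 : ∀ n : ℕ, ∃ S : Submodule 𝕜 Y, IsSeparable (S : Set Y) ∧
      ∀ u : Y →L[𝕜] Y, ‖u‖ ≤ n → IsSeparable (range u) → ∃ s ∈ S, u s ≠ s := fun n =>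
    hcon n (Nat.cast_nonneg n)
  choose S hS hSu using h1
  obtain ⟨u, hu, hfix⟩ := h (⨆ n, S n) (isSeparable_iSup S hS)
  obtain ⟨n, hn⟩ := exists_nat_ge ‖u‖
  obtain ⟨s, hs, hne⟩ := hSu n u hn hu
  exact hne (hfix s (le_iSup S n hs))

/-- The same for projections. -/
theorem SCP.uniform (h : SCP 𝕜 Y) : ∃ M : ℝ, 0 ≤ M ∧ ∀ S : Submodule 𝕜 Y,
    IsSeparable (S : Set Y) →
      ∃ P : Y →L[𝕜] Y, ‖P‖ ≤ M ∧ (∀ x, P (P x) = P x) ∧ IsSeparable (range P) ∧
        ∀ s ∈ S, P s = s := by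
  by_contra hcon
  push Not at hcon
  have h1 : ∀ n : ℕ, ∃ S : Submodule 𝕜 Y, IsSeparable (S : Set Y) ∧
      ∀ u : Y →L[𝕜] Y, ‖u‖ ≤ n → (∀ x, u (u x) = u x) → IsSeparable (range u) →
        ∃ s ∈ S, u s ≠ s := fun n => hcon n (Nat.cast_nonneg n)
  choose S hS hSu using h1
  obtain ⟨u, huu, hu, hfix⟩ := h.idem (⨆ n, S n) (isSeparable_iSup S hS)
  obtain ⟨n, hn⟩ := exists_nat_ge ‖u‖
  obtain ⟨s, hs, hne⟩ := hSu n u hn huu hu
  exact hne (hfix s (le_iSup S n hs))

/-- A separable subspace of a space with the separable fixing property is complemented as soon as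
it is complemented in every larger separable subspace. -/
theorem SepFix.closedComplemented_iff (h : SepFix 𝕜 Y) (T : Submodule 𝕜 Y)
    (hT : IsSeparable (T : Set Y)) :
    T.ClosedComplemented ↔ ∀ T' : Submodule 𝕜 Y, IsClosed (T' : Set Y) →
      IsSeparable (T' : Set Y) → ∀ hTT' : T ≤ T',
      ∃ p : T' →L[𝕜] T, ∀ t (ht : t ∈ T), p ⟨t, hTT' ht⟩ = ⟨t, ht⟩ := by
  constructor
  · rintro ⟨p, hp⟩ T' - - hTT'
    exact ⟨p.comp T'.subtypeL, fun t ht => hp ⟨t, ht⟩⟩
  · intro H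
    obtain ⟨u, hu, hfix⟩ := h T hT
    set T' : Submodule 𝕜 Y := (LinearMap.range u.toLinearMap).topologicalClosure with hT'
    have hsep : IsSeparable (T' : Set Y) := by
      refine hu.closure.mono ?_
      rw [hT', Submodule.topologicalClosure_coe]
      refine closure_mono ?_
      intro x hx
      simpa using hx
    have hle : T ≤ T' := fun t ht =>
      Submodule.le_topologicalClosure _ ⟨t, hfix t ht⟩
    obtain ⟨p, hp⟩ := H T' (Submodule.isClosed_topologicalClosure _) hsep hle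
    refine ⟨p.comp (u.codRestrict T' (fun y => Submodule.le_topologicalClosure _ ⟨y, rfl⟩)), ?_⟩
    rintro ⟨t, ht⟩
    have h1 : u.codRestrict T' (fun y => Submodule.le_topologicalClosure _ ⟨y, rfl⟩) t =
        ⟨t, hle ht⟩ := by
      ext; exact hfix t ht
    rw [ContinuousLinearMap.comp_apply, h1, hp t ht]

end Uniform

section Complement

variable {𝕜 : Type*} [RCLike 𝕜] {Y V : Type*} [NormedAddCommGroup Y] [NormedSpace 𝕜 Y]
  [NormedAddCommGroup V] [NormedSpace 𝕜 V]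

/-- If `Y × V` has the SCP and `V` is separable, then `Y` has the SCP. -/
theorem SCP.of_prod_separable [SeparableSpace V] (h : SCP 𝕜 (Y × V)) : SCP 𝕜 Y := by
  apply scp_of_idem
  intro S hS
  have hR : IsSeparable ((S.prod (⊤ : Submodule 𝕜 V) : Submodule 𝕜 (Y × V)) : Set (Y × V)) := by
    rw [Submodule.prod_coe]
    exact hS.prod (by simpa using isSeparable_univ_iff.mpr ‹SeparableSpace V›)
  obtain ⟨P, hPP, hPs, hPf⟩ := h.idem _ hR
  have h0 : ∀ v : V, P (0, v) = (0, v) := fun v => hPf _ ⟨S.zero_mem, trivial⟩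
  refine ⟨(ContinuousLinearMap.fst 𝕜 Y V).comp (P.comp (ContinuousLinearMap.inl 𝕜 Y V)), ?_, ?_, ?_⟩
  · intro y
    simp only [ContinuousLinearMap.comp_apply, ContinuousLinearMap.inl_apply,
      ContinuousLinearMap.coe_fst']
    have h1 := hPP (y, 0)
    set a := P (y, 0) with ha
    have h2 : (a.1, a.2) = ((a.1, 0) : Y × V) + (0, a.2) := by simp
    have h3 : P (a.1, 0) + P (0, a.2) = a := by
      rw [← map_add, ← h2]; exact h1
    rw [h0] at h3
    have h4 := congrArg Prod.fst h3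
    simpa using h4
  · refine (hPs.image continuous_fst).mono ?_
    rintro _ ⟨y, rfl⟩
    exact ⟨P (y, 0), ⟨(y, 0), rfl⟩, rfl⟩
  · intro s hs
    simp only [ContinuousLinearMap.comp_apply, ContinuousLinearMap.inl_apply,
      ContinuousLinearMap.coe_fst']
    rw [hPf (s, 0) ⟨hs, trivial⟩]

end Complement

section Bidual

variable {𝕜 : Type*} [RCLike 𝕜]

/-- Bounded sequences have limits along a fixed ultrafilter. -/
theorem exists_ulim (x : ℕ → 𝕜) (C : ℝ) (hx : ∀ n, ‖x n‖ ≤ C) :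
    ∃ l : 𝕜, Tendsto x (hyperfilter ℕ : Filter ℕ) (𝓝 l) ∧ ‖l‖ ≤ C := by
  have hK : IsCompact (Metric.closedBall (0 : 𝕜) C) := isCompact_closedBall _ _
  obtain ⟨l, hl, hle⟩ := hK.ultrafilter_le_nhds ((hyperfilter ℕ).map x) (by
    rw [Filter.le_principal_iff]
    change x ⁻¹' Metric.closedBall (0 : 𝕜) C ∈ (hyperfilter ℕ : Filter ℕ)
    refine Filter.mem_of_superset (Filter.univ_mem) (fun n _ => ?_)
    simpa using hx n)
  exact ⟨l, hle, by simpa using hl⟩

variable {Y T : Type*} [NormedAddCommGroup Y] [NormedSpace 𝕜 Y]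
  [NormedAddCommGroup T] [NormedSpace 𝕜 T]

/-- A pointwise bounded sequence of operators `Y → T` has an ultrafilter limit `Y → T**`. -/
theorem exists_bidual_limit (v : ℕ → Y →L[𝕜] T) (M : ℝ) (hM : ∀ n, ‖v n‖ ≤ M) :
    ∃ J : Y →L[𝕜] StrongDual 𝕜 (StrongDual 𝕜 T), ∀ y (f : StrongDual 𝕜 T),
      Tendsto (fun n => f (v n y)) (hyperfilter ℕ : Filter ℕ) (𝓝 (J y f)) := by
  have hb : ∀ y (f : StrongDual 𝕜 T) n, ‖f (v n y)‖ ≤ ‖f‖ * (M * ‖y‖) := by
    intro y f n
    calc ‖f (v n y)‖ ≤ ‖f‖ * ‖v n y‖ := f.le_opNorm _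
      _ ≤ ‖f‖ * (‖v n‖ * ‖y‖) := by gcongr; exact (v n).le_opNorm y
      _ ≤ ‖f‖ * (M * ‖y‖) := by gcongr; exact hM n
  choose J hJ hJb using fun y (f : StrongDual 𝕜 T) => exists_ulim (fun n => f (v n y)) _ (hb y f)
  have M0 : 0 ≤ M := (norm_nonneg _).trans (hM 0)
  have hlin : ∀ y, ∃ L : StrongDual 𝕜 (StrongDual 𝕜 T), (∀ f, L f = J y f) ∧
      ‖L‖ ≤ M * ‖y‖ := by
    intro y
    refine ⟨LinearMap.mkContinuous
      { toFun := fun f => J y f
        map_add' := fun f g => ?_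
        map_smul' := fun c f => ?_ } (M * ‖y‖) (fun f => ?_), fun f => rfl, ?_⟩
    · refine tendsto_nhds_unique (hJ y (f + g)) ?_
      simpa using (hJ y f).add (hJ y g)
    · refine tendsto_nhds_unique (hJ y (c • f)) ?_
      simpa using (hJ y f).const_mul c
    · calc ‖J y f‖ ≤ ‖f‖ * (M * ‖y‖) := hJb y f
        _ = M * ‖y‖ * ‖f‖ := by ring
    · exact LinearMap.mkContinuous_norm_le _ (by positivity) _
  choose L hL hLb using hlin
  have hadd : ∀ y z, L (y + z) = L y + L z := by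
    intro y z
    ext f
    rw [add_apply, hL, hL, hL]
    refine tendsto_nhds_unique (hJ (y + z) f) ?_
    simpa using (hJ y f).add (hJ z f)
  have hsmul : ∀ (c : 𝕜) y, L (c • y) = c • L y := by
    intro c y
    ext f
    rw [smul_apply, hL, hL]
    refine tendsto_nhds_unique (hJ (c • y) f) ?_
    simpa using (hJ y f).const_mul c
  refine ⟨LinearMap.mkContinuous
      { toFun := L
        map_add' := hadd
        map_smul' := hsmul } M hLb, fun y f => ?_⟩
  have : (LinearMap.mkContinuous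
      { toFun := L
        map_add' := hadd
        map_smul' := hsmul } M hLb : Y →L[𝕜] StrongDual 𝕜 (StrongDual 𝕜 T)) y f =
        L y f := rfl
  rw [this, hL]
  exact hJ y f

end Bidual

section Rich

variable {𝕜 : Type*} [RCLike 𝕜] {Y : Type*} [NormedAddCommGroup Y] [NormedSpace 𝕜 Y]

/-- The limiting step: a sequence of operators, eventually the identity on each `F k`, yields a
projection onto the closure `T` of the union when `T` is complemented in its bidual. -/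
theorem closedComplemented_of_seq (F : ℕ → Submodule 𝕜 Y) (u : ℕ → Y →L[𝕜] Y) (M : ℝ)
    (hM : ∀ n, ‖u n‖ ≤ M) (hmono : Monotone F) (hfix : ∀ n, ∀ s ∈ F n, u n s = s)
    (hran : ∀ n y, u n y ∈ F (n + 1)) (T : Submodule 𝕜 Y) (hle' : ⨆ n, F n ≤ T)
    (hTcl : ∀ t ∈ T, t ∈ closure ((⨆ n, F n : Submodule 𝕜 Y) : Set Y))
    (π : StrongDual 𝕜 (StrongDual 𝕜 T) →L[𝕜] T)
    (hπ : ∀ t, π (NormedSpace.inclusionInDoubleDual 𝕜 T t) = t) :
    T.ClosedComplemented := by
  have hle : ∀ n, F n ≤ T := fun n => (le_iSup F n).trans hle'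
  set v : ℕ → Y →L[𝕜] T := fun n => (u n).codRestrict T (fun y => hle (n + 1) (hran n y)) with hv
  have hvM : ∀ n, ‖v n‖ ≤ M := by
    intro n
    refine ContinuousLinearMap.opNorm_le_bound _ ((norm_nonneg _).trans (hM 0)) (fun y => ?_)
    change ‖u n y‖ ≤ M * ‖y‖
    exact (u n).le_of_opNorm_le (hM n) y
  obtain ⟨J, hJ⟩ := exists_bidual_limit v M hvM
  refine ⟨π.comp J, ?_⟩
  have h1 : ∀ t : T, (t : Y) ∈ (⨆ n, F n : Submodule 𝕜 Y) → (π.comp J) t = t := by
    rintro t ht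
    have h2 : ∃ k, (t : Y) ∈ F k := (Submodule.mem_iSup_of_directed F hmono.directed_le).mp ht
    obtain ⟨k, hk⟩ := h2
    have h3 : J t = NormedSpace.inclusionInDoubleDual 𝕜 T t := by
      ext f
      rw [NormedSpace.dual_def]
      refine tendsto_nhds_unique (hJ t f) ?_
      refine Tendsto.congr' (f₁ := fun _ => f t) ?_ tendsto_const_nhds
      have h4 : ∀ᶠ n in (hyperfilter ℕ : Filter ℕ), k ≤ n := by
        have : ∀ᶠ n in (Filter.cofinite : Filter ℕ), k ≤ n := by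
          rw [Nat.cofinite_eq_atTop]; exact eventually_ge_atTop k
        exact hyperfilter_le_cofinite this
      filter_upwards [h4] with n hn
      congr 1
      apply Subtype.ext
      exact (hfix n _ (hmono hn hk)).symm
    rw [ContinuousLinearMap.comp_apply, h3, hπ]
  intro t
  obtain ⟨x, hx, hxt⟩ := mem_closure_iff_seq_limit.mp (hTcl t t.2)
  have h6 : ∀ n, x n ∈ T := fun n => hle' (hx n)
  have h7 : Tendsto (fun n => (⟨x n, h6 n⟩ : T)) atTop (𝓝 t) := by
    rw [tendsto_subtype_rng]; exact hxt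
  have h8 : Tendsto (fun n => (π.comp J) (x n)) atTop (𝓝 ((π.comp J) t)) :=
    ((π.comp J).continuous.tendsto _).comp hxt
  refine tendsto_nhds_unique h8 ?_
  refine h7.congr (fun n => ?_)
  exact (h1 ⟨x n, h6 n⟩ (hx n)).symm

/-- Rich family criterion. -/
theorem SepFix.scp_of_rich (h : SepFix 𝕜 Y) (𝓕 : Set (Submodule 𝕜 Y))
    (h𝓕 : RichFamily 𝕜 Y 𝓕) (hbid : ∀ F ∈ 𝓕, BidualComplemented 𝕜 F) : SCP 𝕜 Y := by
  obtain ⟨hsep, hcof, hchain⟩ := h𝓕
  obtain ⟨M, -, hM⟩ := h.uniform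
  intro S hS
  -- one step
  have step : ∀ G : {G : Submodule 𝕜 Y // G ∈ 𝓕}, ∃ (G' : {G : Submodule 𝕜 Y // G ∈ 𝓕})
      (u : Y →L[𝕜] Y), ‖u‖ ≤ M ∧ (∀ s ∈ G.1, u s = s) ∧ (∀ y, u y ∈ G'.1) := by
    rintro ⟨G, hG⟩
    obtain ⟨u, hu, hus, huf⟩ := hM G (hsep G hG)
    have h1 : IsSeparable ((LinearMap.range u.toLinearMap : Submodule 𝕜 Y) : Set Y) := by
      refine hus.mono ?_
      intro x hx
      simpa using hx
    obtain ⟨G', hG', hle⟩ := hcof _ h1
    exact ⟨⟨G', hG'⟩, u, hu, huf, fun y => hle ⟨y, rfl⟩⟩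
  choose nx u hu1 hu2 hu3 using step
  obtain ⟨F0, hF0, hSF0⟩ := hcof S hS
  set F : ℕ → {G : Submodule 𝕜 Y // G ∈ 𝓕} := fun n => nx^[n] ⟨F0, hF0⟩ with hF
  have hFs : ∀ n, F (n + 1) = nx (F n) := fun n => by
    simp only [hF, Function.iterate_succ_apply']
  have hstep : ∀ n, (F n).1 ≤ (F (n + 1)).1 := by
    intro n s hs
    rw [hFs, ← hu2 (F n) s hs]
    exact hu3 (F n) s
  have hmono : Monotone (fun n => (F n).1) := monotone_nat_of_le_succ hstep
  have hT : (⨆ n, (F n).1).topologicalClosure ∈ 𝓕 := hchain _ hmono (fun n => (F n).2)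
  obtain ⟨π, hπ⟩ := hbid _ hT
  refine ⟨(⨆ n, (F n).1).topologicalClosure, ?_, hsep _ hT, ?_⟩
  · exact hSF0.trans ((le_iSup (fun n => (F n).1) 0).trans (Submodule.le_topologicalClosure _))
  · refine closedComplemented_of_seq (fun n => (F n).1) (fun n => u (F n)) M
      (fun n => hu1 _) hmono (fun n => hu2 _) (fun n y => ?_) _
      (Submodule.le_topologicalClosure _) (fun t ht => ?_) π hπ
    · rw [hFs]
      exact hu3 (F n) y
    · rwa [← SetLike.mem_coe, Submodule.topologicalClosure_coe] at ht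

end Rich

end Pool.Agent.Work.MP_156639_an
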