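import Mathlib
import Pool.Agent.Work.MP_156639_an_helper49.Determine

/-!
# Positive answers to the complementation question under additional hypotheses
-/

set_option autoImplicit false

open TopologicalSpace Set
open Pool.Agent.Work.MP_156639_an

namespace Pool.Agent.Work.MP_156639_an_helper49.RichCriterionProof

theorem main {𝕜 : Type*} [RCLike 𝕜] {X : Type*} [NormedAddCommGroup X] [NormedSpace 𝕜 X]
    [CompleteSpace X] (hX : SCP 𝕜 X) (Y : Submodule 𝕜 X) (hY : Y.ClosedComplemented) :
    -- a rich family of separable subspaces complemented in their biduals suffices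
    (∀ 𝓕 : Set (Submodule 𝕜 Y), RichFamily 𝕜 Y 𝓕 → (∀ F ∈ 𝓕, BidualComplemented 𝕜 F) →
      SCP 𝕜 Y) ∧
    -- a separable complement suffices
    (∀ q : X →L[𝕜] Y, (∀ y : Y, q y = y) → IsSeparable (q.ker : Set X) → SCP 𝕜 Y) ∧
    -- complementation of separable subspaces of `Y` is decided in separable superspaces
    (∀ T : Submodule 𝕜 Y, IsSeparable (T : Set Y) →
      (T.ClosedComplemented ↔ ∀ T' : Submodule 𝕜 Y, IsClosed (T' : Set Y) →
        IsSeparable (T' : Set Y) → ∀ hTT' : T ≤ T',
        ∃ p : T' →L[𝕜] T, ∀ t (ht : t ∈ T), p ⟨t, hTT' ht⟩ = ⟨t, ht⟩)) := by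
  obtain ⟨q₀, hq₀⟩ := hY
  have hfix : SepFix 𝕜 Y := sepFix_of_retract hX Y.subtypeL q₀ hq₀
  refine ⟨fun 𝓕 h1 h2 => hfix.scp_of_rich 𝓕 h1 h2, ?_, fun T hT =>
    hfix.closedComplemented_iff T hT⟩
  intro q hq hker
  apply scp_of_idem
  intro S hS
  have hR : IsSeparable ((S.map Y.subtype ⊔ q.ker : Submodule 𝕜 X) : Set X) := by
    rw [← Submodule.span_eq (S.map Y.subtype), ← Submodule.span_eq q.ker, ← Submodule.span_union]
    refine (IsSeparable.union ?_ hker).span
    have : ((S.map Y.subtype : Submodule 𝕜 X) : Set X) = Y.subtypeL '' (S : Set Y) := by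
      ext x; simp
    rw [this]
    exact hS.image Y.subtypeL.continuous
  obtain ⟨P, hPP, hPs, hPf⟩ := hX.idem _ hR
  have hk : ∀ k ∈ q.ker, P k = k := fun k hk => hPf k (Submodule.mem_sup_right hk)
  refine ⟨q.comp (P.comp Y.subtypeL), ?_, ?_, ?_⟩
  · intro y
    simp only [ContinuousLinearMap.comp_apply, Submodule.subtypeL_apply]
    set a := P y with ha
    have h1 : a - (q a : X) ∈ q.ker := by
      rw [LinearMap.mem_ker]
      simp [hq (q a)]
    have h2 : P (q a : X) = (q a : X) := by
      have h3 : (q a : X) = a - (a - (q a : X)) := by abel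
      have h4 : P a = a := hPP y
      conv_lhs => rw [h3, map_sub, h4, hk _ h1]
      abel
    rw [h2, hq]
  · refine (hPs.image q.continuous).mono ?_
    rintro _ ⟨y, rfl⟩
    exact ⟨P y, ⟨y, rfl⟩, rfl⟩
  · intro s hs
    simp only [ContinuousLinearMap.comp_apply, Submodule.subtypeL_apply]
    rw [hPf s (Submodule.mem_sup_left ⟨s, hs, rfl⟩), hq]

end Pool.Agent.Work.MP_156639_an_helper49.RichCriterionProof
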